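import Pool.Agent.KS6_21.NC.Reg

/-!
# Bounded double centralizers in groups: the answers for all `n`

The library has groups with finite double centralizers in which `G_{≤ 2}` is neither closed nor
`σ`-discrete in the semi-Zariski topology. Here both questions are answered for groups and all `n`:
both have a positive answer exactly for `n ≤ 1`. One group is a counterexample to both questions for
all `n ≥ 2` at the same time, and the sets `G_{≤ n}` are even dense; such groups exist in all
regular uncountable cardinalities `μ`, where `G_{≤ n}` is not a union of fewer than `μ` discrete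
subspaces. The sets `G_{≤ n}`, `n ≥ 2`, are dense and not closed already in the groups of the
finitary permutations of infinite sets, the standard examples of perfectly supportable groups.
-/

set_option autoImplicit false

namespace Pool.Agent.Results.MP_b73301_gt.AllLevels

open Set Topology Cardinal Pool.Agent.KS6_21.SZ Pool.Agent.KS6_21.NC

/-- Finite double centralizers. -/
def FDC (S : Type) [Semigroup S] : Prop :=
  ∀ F : Set S, F.Finite → F.centralizer.centralizer.Finite

/-- The subset `T` is a countable union of discrete subspaces of the semi-Zariski topology. -/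
def SigmaDiscreteOn (S : Type) [Semigroup S] (T : Set S) : Prop :=
  ∃ D : ℕ → Set S,
    (∀ n, @DiscreteTopology (D n) (TopologicalSpace.induced Subtype.val (semiZariski S))) ∧
    (⋃ n, D n) = T

/-- Here `Sle G n` is the set of the elements of `G` whose double centralizers have at most `n`
elements.
(1) The group of the finitary permutations of an infinite set `X` has finite double centralizers,
and for all `n ≥ 2` the set `Sle (FSym X) n` is dense and not closed in the semi-Zariski topology.
(2) For every regular uncountable cardinal `μ` there is a group `G` of cardinality `μ` with finite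
double centralizers such that for all `n ≥ 2` the set `Sle G n` is dense, not closed, and not a union
of fewer than `μ` discrete subspaces.
(3) In every group, `Sle G n` contains at most the unit, if `n ≤ 1`; it is closed.
(4), (5) So Q1 and Q2, for groups and a given `n`, have a positive answer if and only if
`n ≤ 1`; the same group is a counterexample to both for all `n ≥ 2`. -/
theorem result :
    (∀ (X : Type) [Infinite X], FDC (FSym X) ∧ ∀ n : ℕ, 2 ≤ n →
      @closure (FSym X) (semiZariski (FSym X)) (Sle (FSym X) n) = Set.univ ∧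
      ¬ @IsClosed (FSym X) (semiZariski (FSym X)) (Sle (FSym X) n)) ∧
    (∀ μ : Cardinal.{0}, μ.IsRegular → ℵ₀ < μ → ∃ (G : Type) (_ : Group G), #G = μ ∧ FDC G ∧
      ∀ n : ℕ, 2 ≤ n → @closure G (semiZariski G) (Sle G n) = Set.univ ∧
        ¬ @IsClosed G (semiZariski G) (Sle G n) ∧ ¬ SigmaDiscreteOn G (Sle G n) ∧
        ∀ (J : Type) (D : J → Set G), #J < μ →
          (∀ j, @DiscreteTopology (D j) (TopologicalSpace.induced Subtype.val (semiZariski G))) →
          (⋃ j, D j) ≠ Sle G n) ∧
    (∀ (G : Type) [Group G] (n : ℕ), n ≤ 1 →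
      Sle G n ⊆ {1} ∧ @IsClosed G (semiZariski G) (Sle G n) ∧ SigmaDiscreteOn G (Sle G n)) ∧
    (∀ n : ℕ, (∀ (G : Type) [Group G], FDC G → @IsClosed G (semiZariski G) (Sle G n)) ↔
      n ≤ 1) ∧
    (∀ n : ℕ, (∀ (G : Type) [Group G], FDC G → SigmaDiscreteOn G (Sle G n)) ↔ n ≤ 1) := by
  classical
  have h2 : ∀ μ : Cardinal.{0}, μ.IsRegular → ℵ₀ < μ → ∃ (G : Type) (_ : Group G), #G = μ ∧
      FDC G ∧ ∀ n : ℕ, 2 ≤ n → @closure G (semiZariski G) (Sle G n) = Set.univ ∧
        ¬ @IsClosed G (semiZariski G) (Sle G n) ∧ ¬ SigmaDiscreteOn G (Sle G n) ∧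
        ∀ (J : Type) (D : J → Set G), #J < μ →
          (∀ j, @DiscreteTopology (D j) (TopologicalSpace.induced Subtype.val (semiZariski G))) →
          (⋃ j, D j) ≠ Sle G n := by
    intro μ h1 h2
    obtain ⟨G, i, h3, h4, h5⟩ := exists_regular h1 h2
    refine ⟨G, i, h3, h4, fun n hn => ?_⟩
    obtain ⟨h6, h7, h8⟩ := h5 n hn
    refine ⟨h6, h7, ?_, h8⟩
    rintro ⟨D, h9, h10⟩
    exact h8 ℕ D (by simpa using h2) h9 h10
  have h3 : ∀ (G : Type) [Group G] (n : ℕ), n ≤ 1 →
      Sle G n ⊆ {1} ∧ @IsClosed G (semiZariski G) (Sle G n) ∧ SigmaDiscreteOn G (Sle G n) := by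
    intro G _ n hn
    refine ⟨Sle_one hn, closed_of_subset (Sle_one hn), fun _ => Sle G n, fun _ => ?_,
      iUnion_const _⟩
    have h4 : Subsingleton (Sle G n) := ⟨fun a b => Subtype.ext
      ((Sle_one hn a.2 : a.1 = 1).trans (Sle_one hn b.2 : b.1 = 1).symm)⟩
    let _ : TopologicalSpace (Sle G n) := TopologicalSpace.induced Subtype.val (semiZariski G)
    exact Subsingleton.discreteTopology
  have h4 : ∃ (G : Type) (_ : Group G), FDC G ∧ ∀ n : ℕ, 2 ≤ n →
      ¬ @IsClosed G (semiZariski G) (Sle G n) ∧ ¬ SigmaDiscreteOn G (Sle G n) := by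
    obtain ⟨G, i, -, h5, h6⟩ := h2 (Order.succ ℵ₀) (Cardinal.isRegular_succ le_rfl)
      (Order.lt_succ _)
    exact ⟨G, i, h5, fun n hn => ⟨(h6 n hn).2.1, (h6 n hn).2.2.1⟩⟩
  obtain ⟨G, i, h5, h6⟩ := h4
  refine ⟨fun X _ => ⟨Pool.Agent.KS6_21.NC.fdc, fun n hn => ⟨fsym_dense hn,
    not_closed (fsym_dense hn) fsym_ne⟩⟩, h2, h3, fun n => ⟨fun h => ?_, fun hn G _ _ =>
    (h3 G n hn).2.1⟩, fun n => ⟨fun h => ?_, fun hn G _ _ => (h3 G n hn).2.2⟩⟩
  · by_contra hn
    exact (h6 n (by omega)).1 (h G h5)
  · by_contra hn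
    exact (h6 n (by omega)).2 (h G h5)

end Pool.Agent.Results.MP_b73301_gt.AllLevels
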